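import Pool.Agent.U722.TT.Rs

/-!
# Groups of two by two matrices over arbitrary commutative rings

Let `C` be a class of groups with `TreeClosed C`: it is closed under subgroups, finite products,
directed colimits and actions on trees (`TreeC`), it contains the virtually solvable groups, and it
contains `G` if there is a surjection `G → Q` such that `Q` and the preimages of the finite subgroups
of `Q` are in `C`. Assume that `C` contains the groups `GL_n(ℚ)`. Then

(1) `GL_2(R)` is in `C` for EVERY commutative ring `R`;
(2) every group which is residually linear of degree two (over fields which may vary) is in `C`;
(3) `G` is in `C` if there is a surjection `G → Q` onto a torsion-free group `Q` in `C` with a kernel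
which is residually linear of degree two.

All the hypotheses are published for the class of the groups `G` for which the L-theoretic assembly
map with coefficients in additive categories with involution, for the family of the finite subgroups,
is an isomorphism after inverting 2, and for its analogue in homotopy K-theory (trees: Cappell,
Waldhausen, Bartels-Lück 2006; coefficients and extensions: Bartels-Reich; colimits:
Bartels-Echterhoff-Lück; virtually solvable groups: Wegner; `GL_n(ℚ)`: Rüping). For a torsion-free
group `G` in this class, for instance for a Poincaré duality group, the assembly map
`L_*(BG) → L_*(ℤG)` is an isomorphism after inverting 2.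

Outline of the proof. A finitely generated ring is noetherian; modulo a solvable kernel (the
congruence subgroup of the nilradical) `GL_2` of it is a subgroup of a finite product of groups
`GL_2(F)` over fields. For finitely generated groups the entries lie in a domain of finite type over
the prime field `k`, which is integral over a polynomial ring `P` (Noether normalization). After a
power of the Frobenius map the field `E` of fractions is separable over `L = Frac P`. The finitely many
extensions `V` of the valuation at infinity (the total degree) to `E` have the property: an element
of `E` which is integral over `P` and has `V ≥ 0` for all these `V` is algebraic over `k`. By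
successive actions on the trees of `GL_2` over the valued fields one gets down to subgroups which fix
a vertex in each of the trees; their traces are algebraic over `k`. Such a group is solvable, or its
matrices span a finite-dimensional algebra over an algebraic extension of `k`.
-/

set_option autoImplicit false

namespace Pool.Agent.Results.MP_c13a79_gt.AllCommutativeRings

open Matrix
open Pool.Agent.U722.TT (TreeClosed ResiduallyTwo)

/-- Let `C` be a class of groups with `TreeClosed C` which contains all groups `GL_n(ℚ)`.
(1) `GL_2(R)` is in `C` for every commutative ring `R`. (2) Every group which is residually linear of
degree two is in `C`. (3) If `π : G → Q` is surjective, `Q` is a torsion-free group in `C` and the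
kernel of `π` is residually linear of degree two, then `G` is in `C`. -/
theorem result (C : ∀ (G : Type) [Group G], Prop) (hC : TreeClosed C)
    (hQ : ∀ n : ℕ, C (GL (Fin n) ℚ)) :
    (∀ (R : Type) [CommRing R], C (GL (Fin 2) R)) ∧
    (∀ (N : Type) [Group N], ResiduallyTwo N → C N) ∧
    ∀ (G Q : Type) [Group G] [Group Q] (π : G →* Q), Function.Surjective π → C Q →
      (∀ q : Q, ∀ n : ℕ, 0 < n → q ^ n = 1 → q = 1) → ResiduallyTwo ↥π.ker → C G :=
  ⟨fun R _ => Pool.Agent.U722.TT.rings hC hQ R,
    fun N _ h => Pool.Agent.U722.TT.residual hC hQ N h,
    fun _ _ _ _ π hπ hCQ htf hN => Pool.Agent.U722.TT.ext_tf hC π hπ
      (Pool.Agent.U722.TT.residual hC hQ _ hN) hCQ htf⟩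

end Pool.Agent.Results.MP_c13a79_gt.AllCommutativeRings
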