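import Pool.Agent.U722.TT.Pc

/-!
# Groups of polynomial automorphisms over arbitrary commutative rings

Let `C` be a class of groups with `TreeClosed C`: it is closed under subgroups, finite products,
directed colimits and actions on trees (`TreeC`), it contains the virtually solvable groups, and it
contains `G` if there is a surjection `G → Q` such that `Q` and the preimages of the finite subgroups
of `Q` are in `C`. `PA n R` is the group of the automorphisms of the algebra `R[x_1, ..., x_n]` over the
commutative ring `R`.

(1) (any number of variables) A group `Γ` of automorphisms of `R[x_1, ..., x_n]` is in `C` if for every
homomorphism from `R` to a field `K` its image in the group of automorphisms of `K[x_1, ..., x_n]` is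
in `C` (it suffices to have this for the residue fields of the prime ideals).

(2) Let `C` contain the groups `GL_n(ℚ)`, and let `n = 2`. Then `Γ` is in `C` if all these images are
contained in the groups `tame K` generated by the affine and the triangular automorphisms. By the
theorem of Jung and van der Kulk this condition always holds, so this concerns all groups of
automorphisms of `R[x, y]`, `R` any commutative ring.

(3) In particular the group `tame R` generated by the affine and triangular automorphisms of `R[x, y]`
is in `C` for every commutative ring `R`.

All the hypotheses are published for the class of the groups `G` for which the L-theoretic assembly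
map with coefficients in additive categories with involution, for the family of the finite subgroups,
is an isomorphism after inverting 2, and for its analogue in homotopy K-theory.

Outline of the proof. For a finitely generated group `Γ` the coefficients lie in a finitely generated
subring `B` of `R`, which is noetherian. The minimal primes of `B` are restrictions of primes of `R`.
The automorphisms in `Γ` which are trivial over all these residue fields are trivial modulo the
nilradical of `B`, hence they form a solvable group. Over a field the affine and the triangular group
generate their amalgamated product, which acts on a tree (library of helper293); the triangular group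
is solvable and the affine group is an extension of `GL_2(K)` by an abelian group. That `GL_2(K)` is in
`C` for every field is part of `MP_c13a79_gt.AllCommutativeRings`.
-/

set_option autoImplicit false

namespace Pool.Agent.Results.MP_c13a79_gt.PolynomialAutomorphisms

open Pool.Agent.U722.TT (TreeClosed PA bc tame)

/-- a group of automorphisms of a polynomial ring over a commutative ring is in `C` if its images over
all fields are in `C` -/
def FieldsDecide (C : ∀ (G : Type) [Group G], Prop) : Prop :=
  ∀ (n : ℕ) (R : Type) [CommRing R] (Γ : Subgroup (PA n R)),
    (∀ (K : Type) [Field K] (φ : R →+* K), C ↥(Γ.map (bc φ))) → C ↥Γ

/-- a group of automorphisms of `R[x, y]` is in `C` if its images over all fields are contained in the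
tame groups -/
def TameImages (C : ∀ (G : Type) [Group G], Prop) : Prop :=
  ∀ (R : Type) [CommRing R] (Γ : Subgroup (PA 2 R)),
    (∀ (K : Type) [Field K] (φ : R →+* K), Γ.map (bc φ) ≤ tame K) → C ↥Γ

/-- Let `C` be a class of groups with `TreeClosed C`. (1) A group of automorphisms of
`R[x_1, ..., x_n]` is in `C` if for each homomorphism from `R` to a field its image over this field is
in `C`. If moreover `C` contains all `GL_n(ℚ)`: (2) a group of automorphisms of `R[x, y]` is in `C` if
its images over all fields are contained in the tame groups; (3) `tame R` is in `C` for every
commutative ring `R`. -/
theorem result (C : ∀ (G : Type) [Group G], Prop) (hC : TreeClosed C) :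
    FieldsDecide C ∧ ((∀ n : ℕ, C (Matrix.GeneralLinearGroup (Fin n) ℚ)) →
      TameImages C ∧ ∀ (R : Type) [CommRing R], C ↥(tame R)) :=
  ⟨fun _ _ _ Γ h => Pool.Agent.U722.TT.red hC Γ (fun J _ => h _ (Pool.Agent.U722.TT.rf J)),
    fun hQ => ⟨fun _ _ Γ h => Pool.Agent.U722.TT.plane hC hQ Γ
        (fun J _ => h _ (Pool.Agent.U722.TT.rf J)),
      fun R _ => Pool.Agent.U722.TT.plane_tame hC hQ R⟩⟩

end Pool.Agent.Results.MP_c13a79_gt.PolynomialAutomorphisms
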