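import Pool.Agent.U450.RL.Ht

set_option autoImplicit false

/-!
# Positive definite forms over `ℤ[G]` generated by vectors of norm at most two come from `ℤ`

Let `G` be a torsion-free group (for instance a Poincaré duality group), and let `H` be an invertible
hermitian matrix over `ℤ[G]` (involution `g ↦ g⁻¹`) whose trace form `x ↦ (x H x*)₁` is nonnegative. If
the module `ℤ[G]^ι` is generated by the vectors of trace norm at most two, then the form is isometric
to the form of its augmentation, extended from `ℤ` to `ℤ[G]`, by an isometry with trivial
augmentation; and every quadratic refinement `Q` of `H` (`Q + Q* = H`) becomes the extension of its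
augmentation up to `X - X*`. So the class of such a form in the `L`-group of `ℤ[G]` comes from the
`L`-group of `ℤ`, hence it is in the image of the assembly map. No bound on the size of the entries or
of the rank is assumed, and no property of `G` besides torsion-freeness is used.

The number two is optimal for every nontrivial torsion-free group: there is a form of rank four,
generated by vectors of norm at most three, which is not extended from `ℤ` (the form of Hambleton and
Teichner).

Proof. The form is coercive on `ℓ²`, so the vectors of norm two which are not sums of two vectors of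
norm one have connected supports with a bounded number of elements, and each of them is orthogonal to
all but finitely many others. If four of them form an induced path in the graph of
non-orthogonality, then their sum with suitable signs is again such a vector, and is adjacent to both
ends; hence all components of this graph have diameter at most two and are finite. Their spans are
pairwise orthogonal lattices of finite rank, which `G` permutes freely, since the stabilisers are
finite. Bases of representatives form a basis over `ℤ[G]` with an integral Gram matrix.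
-/

namespace Pool.Agent.Results.MP_c13a79_gt.RootGeneratedForms

open Pool.Agent.U450.RL

theorem result (G : Type) [Group G] (hG : ∀ g : G, ∀ k : ℕ, 0 < k → g ^ k = 1 → g = 1) :
    (∀ (ι : Type) [Fintype ι] [DecidableEq ι] (H : Matrix ι ι (MonoidAlgebra ℤ G)),
      adj H = H → IsUnit H → (∀ x : ι → MonoidAlgebra ℤ G, 0 ≤ (hf H x x).coeff 1) →
      Submodule.span (MonoidAlgebra ℤ G)
        {x : ι → MonoidAlgebra ℤ G | (hf H x x).coeff 1 ≤ 2} = ⊤ →
      ∃ U : (Matrix ι ι (MonoidAlgebra ℤ G))ˣ, agm U.val = 1 ∧
        U.val * H * adj U.val = cst (agm H) ∧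
        ∀ Q : Matrix ι ι (MonoidAlgebra ℤ G), Q + adj Q = H →
          ∃ X : Matrix ι ι (MonoidAlgebra ℤ G),
            U.val * Q * adj U.val = cst (agm Q) + (X - adj X)) ∧
    (Nontrivial G → ∃ L : Matrix (Fin 4) (Fin 4) (MonoidAlgebra ℤ G),
      adj L = L ∧ IsUnit L ∧ (∀ x : Fin 4 → MonoidAlgebra ℤ G, 0 ≤ (hf L x x).coeff 1) ∧
      Submodule.span (MonoidAlgebra ℤ G)
        {x : Fin 4 → MonoidAlgebra ℤ G | (hf L x x).coeff 1 ≤ 3} = ⊤ ∧
      ¬ ∃ (U : (Matrix (Fin 4) (Fin 4) (MonoidAlgebra ℤ G))ˣ) (M : Matrix (Fin 4) (Fin 4) ℤ),
        U.val * L * adj U.val = cst M) := by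
  refine ⟨?_, ?_⟩
  · intro ι _ _ H hH hu hpos hgen
    obtain ⟨U, h1, h2⟩ := main_aug hG hH hu hpos hgen
    exact ⟨U, h1, h2, fun Q hQ => quad hG U.val Q h2 hQ⟩
  · intro hn
    obtain ⟨t, ht1⟩ := exists_ne (1 : G)
    have ht2 : t * t ≠ 1 := fun h => ht1 (hG t 2 two_pos (by rw [sq, h]))
    refine ⟨ht t, adj_ht t, ⟨⟨ht t, hti t, ht_hti t, hti_ht t⟩, rfl⟩, ht_nonneg t,
      ht_gen t ht2, ?_⟩
    rintro ⟨U, M, h⟩
    exact ht_not t ht2 U M h

end Pool.Agent.Results.MP_c13a79_gt.RootGeneratedForms
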