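import Pool.Agent.U731.SG.OddB

set_option autoImplicit false
set_option linter.unusedSectionVars false
set_option linter.style.haveILetI false

/-! Automorphisms of hyperbolic quadratic forms over the group ring `RG`, for any ring with involution
`R`, which are supported in a hermitian complex matrix with spectrum in an interval of length at most
`3 √2` (bound included) are products of such automorphisms over the group rings of virtually cyclic
subgroups. If the interval is shorter than `4`, they are, after a change of basis by group elements,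
products of such automorphisms over the group rings of finite subgroups. -/

namespace Pool.Agent.Results.MP_c13a79_gt.SpanIsometries

open ComplexConjugate Matrix TH6.PF TH6.LF TH57.Thr

/-- The values of `⟨xS, x⟩` on the unit vectors `x` of `ℓ²(G)^κ` with finite support `T` lie in an
interval `[a, a + s]`; for hermitian `S` this says that the spectrum of right multiplication by `S`
lies in it. -/
def SpanLE {G : Type} [Group G] {κ : Type} (S : Matrix κ κ (MonoidAlgebra ℂ G)) (s : ℝ) : Prop :=
  ∃ a : ℝ, ∀ (T : Finset (κ × G)) (x : κ × G → ℂ),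
    a * ∑ p ∈ T, ‖x p‖ ^ 2
      ≤ (∑ p ∈ T, ∑ q ∈ T, x p * (S p.1 q.1).coeff (p.2⁻¹ * q.2) * conj (x q)).re ∧
    (∑ p ∈ T, ∑ q ∈ T, x p * (S p.1 q.1).coeff (p.2⁻¹ * q.2) * conj (x q)).re
      ≤ (a + s) * ∑ p ∈ T, ‖x p‖ ^ 2

/-- `A` is supported, apart from identities on the diagonal, in the support of a hermitian complex
matrix `S` whose nonzero coefficients, except those of the identity on the diagonal, have absolute
value at least one, and whose spectrum lies in an interval of length `s`. -/
def SmallSpan {R : Type} [Ring R] {G : Type} [Group G] {κ : Type}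
    (A : Matrix κ κ (MonoidAlgebra R G)) (s : ℝ) : Prop :=
  ∃ S : Matrix κ κ (MonoidAlgebra ℂ G),
    (∀ i j g, (S j i).coeff g⁻¹ = conj ((S i j).coeff g)) ∧
    (∀ i j g, (S i j).coeff g ≠ 0 → (i = j ∧ g = 1) ∨ 1 ≤ ‖(S i j).coeff g‖) ∧
    (∀ i j g, (A i j).coeff g ≠ 0 → (i = j ∧ g = 1) ∨ (S i j).coeff g ≠ 0) ∧ SpanLE S s

/-- `α` is an automorphism of the hyperbolic `ε`-quadratic form on `(RG)^(2n)`: the matrix
`α * [0, 1; 0, 0] * α*` differs from `[0, 1; 0, 0]` by `χ - ε χ*` for some `χ`. The adjoint `*` uses the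
involution `r g ↦ r* g⁻¹` (trivial orientation character). -/
def IsIsometry {R : Type} [Ring R] [StarRing R] {G : Type} [Group G] {n : ℕ} (ε : ℤ)
    (α : Matrix (Fin n ⊕ Fin n) (Fin n ⊕ Fin n) (MonoidAlgebra R G)) : Prop :=
  ∃ χ : Matrix (Fin n ⊕ Fin n) (Fin n ⊕ Fin n) (MonoidAlgebra R G),
    α * fromBlocks 0 1 0 0 * sadj 1 α = fromBlocks 0 1 0 0 + (χ - ε • sadj 1 χ)

/-- The group generated by the automorphisms of the hyperbolic `ε`-quadratic forms over the group
rings `RC` of the subgroups `C` with the property `P`. -/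
noncomputable def FromSubgroups {R : Type} [Ring R] [StarRing R] {G : Type} [Group G] {n : ℕ} (ε : ℤ)
    (P : Subgroup G → Prop) :
    Subgroup (Matrix (Fin n ⊕ Fin n) (Fin n ⊕ Fin n) (MonoidAlgebra R G))ˣ :=
  Subgroup.closure {x | ∃ (C : Subgroup G)
    (y : (Matrix (Fin n ⊕ Fin n) (Fin n ⊕ Fin n) (MonoidAlgebra R C))ˣ),
    P C ∧ IsIsometry ε y.val ∧ x.val = y.val.map (MonoidAlgebra.mapDomain C.subtype)}

theorem fromSubgroups_eq {R : Type} [Ring R] [StarRing R] {G : Type} [Group G] {n : ℕ} (ε : ℤ)
    (P : Subgroup G → Prop) :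
    (FromSubgroups ε P : Subgroup (Matrix (Fin n ⊕ Fin n) (Fin n ⊕ Fin n) (MonoidAlgebra R G))ˣ)
      = Pool.Agent.U731.SG.PIso R G (Fin n) P ε := rfl

/-- Let `R` be a ring with involution, `G` a group and `α` an automorphism of the hyperbolic
`ε`-quadratic form on `(RG)^(2n)` which is supported in a hermitian complex matrix of span `s`.
1. If `s ≤ 3 √2`, then `α` is a product of automorphisms over the group rings of virtually cyclic
subgroups, cyclic ones if `G` is torsion-free.
2. If `s < 4`, then there are group elements `u 1, ..., u n` such that, for the diagonal matrix `D` with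
the entries `u 1, ..., u n, u 1, ..., u n` (an automorphism of the hyperbolic form), `D α D⁻¹` is a
product of automorphisms over the group rings of finite subgroups; if `G` is torsion-free, then
`D α D⁻¹` is a matrix over `R`. -/
theorem result (R : Type) [Ring R] [StarRing R] (G : Type) [Group G] (ε : ℤ)
    (hε : ε = 1 ∨ ε = -1) (n : ℕ)
    (α : (Matrix (Fin n ⊕ Fin n) (Fin n ⊕ Fin n) (MonoidAlgebra R G))ˣ)
    (hα : IsIsometry ε α.val) (s : ℝ) (hs : SmallSpan α.val s) :
    (s ^ 2 ≤ 18 → α ∈ FromSubgroups ε (fun C : Subgroup G =>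
        ∃ z : C, (Subgroup.zpowers z).FiniteIndex) ∧
      ((∀ g : G, ∀ k : ℕ, 0 < k → g ^ k = 1 → g = 1) →
        α ∈ FromSubgroups ε (fun C : Subgroup G => IsCyclic C))) ∧
    (s < 4 → ∃ (u : Fin n → G) (D : (Matrix (Fin n ⊕ Fin n) (Fin n ⊕ Fin n) (MonoidAlgebra R G))ˣ),
      D.val = Matrix.diagonal (fun i => MonoidAlgebra.single (Sum.elim u u i) 1) ∧
      IsIsometry ε D.val ∧ D * α * D⁻¹ ∈ FromSubgroups ε (fun C : Subgroup G => Finite C) ∧
      ((∀ g : G, ∀ k : ℕ, 0 < k → g ^ k = 1 → g = 1) →
        ∀ i j g, ((D * α * D⁻¹).val i j).coeff g ≠ 0 → g = 1)) := by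
  classical
  have hε2 : ε * ε = 1 := by rcases hε with rfl | rfl <;> norm_num
  have hQ : QIso ε α.val := hα
  obtain ⟨S, h1, h2, h3, h4⟩ := hs
  refine ⟨fun hs => ?_, fun hs => ?_⟩
  · have h5 : α ∈ VCIso R G (Fin n) ε :=
      Pool.Agent.U731.SG.span_iso_vc ε hε2 α hQ S h1 h2 h3 s hs h4
    exact ⟨h5, fun htf => VCIso_le_CycIso ε htf h5⟩
  · obtain ⟨v, hv, hmem⟩ := Pool.Agent.U731.SG.span_iso_finite ε hε2 α hQ S h1 h2 h3 s hs h4
    have hvu : v = Sum.elim (fun c => v (Sum.inl c)) (fun c => v (Sum.inl c)) := by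
      funext i
      rcases i with i | i
      · rfl
      · exact (hv i).symm
    refine ⟨fun c => v (Sum.inl c), dmU R v, ?_, QIso_dmU ε v hv, hmem, fun htf i j g hg => ?_⟩
    · rw [← hvu]
      rfl
    · have hle : Pool.Agent.U731.SG.PIso R G (Fin n) (fun C => Finite C) ε
          ≤ glim R (Fin n ⊕ Fin n) (⊥ : Subgroup G) := by
        refine (Subgroup.closure_le _).2 ?_
        rintro x ⟨C, y, hC, -, hx⟩
        have hC1 : C = ⊥ := by
          rw [Subgroup.eq_bot_iff_forall]
          intro g hg
          haveI := hC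
          have h6 := congrArg Subtype.val (pow_card_eq_one' (x := (⟨g, hg⟩ : C)))
          rw [Subgroup.coe_pow, Subgroup.coe_one] at h6
          exact htf g _ Nat.card_pos h6
        subst hC1
        exact ⟨y, Units.ext hx.symm⟩
      obtain ⟨y, hy⟩ := hle hmem
      have hxy : (dmU R v * α * (dmU R v)⁻¹).val
          = y.val.map (MonoidAlgebra.mapDomain (⊥ : Subgroup G).subtype) := by rw [← hy]; rfl
      rw [hxy, Matrix.map_apply, MonoidAlgebra.coeff_mapDomain] at hg
      by_contra hne
      apply hg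
      apply Finsupp.mapDomain_of_notMem_range
      rintro ⟨z, hz⟩
      exact hne (by rw [← hz]; exact Subgroup.mem_bot.1 z.2)

end Pool.Agent.Results.MP_c13a79_gt.SpanIsometries
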